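import Pool.Agent.N767.QF.Win3

/-!
QF/L2: the window lemma.
-/

set_option autoImplicit false

open Complex Filter Topology MeasureTheory Set
open H385 (bt wt)
open Pool.Agent.N880.QF

namespace Pool.Agent.N767.QF

set_option maxHeartbeats 2000000 in
/-- the window lemma -/
theorem win_main : S_win := by
  intro δ hδ
  set δ' := min δ 1 with hδ'
  have hδ0 : 0 < δ' := lt_min hδ one_pos
  have hδ1 : δ' ≤ 1 := min_le_right _ _
  have hδδ : δ' ≤ δ := min_le_left _ _
  set K := 8 / δ' with hK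
  have hK8 : 8 ≤ K := by rw [hK, le_div_iff₀ hδ0]; nlinarith
  have hK0 : 0 < K := by linarith
  have hKe : Real.exp (-K ^ 2) ≤ δ' / 8 := by
    have h1 : Real.exp (-K ^ 2) ≤ Real.exp (-K) := Real.exp_le_exp.2 (by nlinarith)
    have h2 : Real.exp (-K) ≤ 1 / K := by
      rw [Real.exp_neg, one_div]
      exact inv_anti₀ hK0 (by linarith [Real.add_one_le_exp K])
    have h3 : 1 / K = δ' / 8 := by rw [hK]; field_simp
    linarith
  set d := δ' / 8 with hd
  have hd0 : 0 < d := by positivity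
  have hpi := Real.pi_pos
  have hsp := H385.Cut.sqrt_pi_pos
  set Ce := c1 ^ 2 * (2 * Real.sqrt Real.pi) * Real.exp 2 * Real.sqrt (8 * Real.pi) *
    (2 * Real.sqrt Real.pi) with hCe
  have hCe0 : 0 < Ce := by
    have := c1_pos
    positivity
  set Cm := (1 + 1 / d) / (2 * Real.pi) with hCm
  have hCm0 : 0 < Cm := by positivity
  refine ⟨Ce + Cm, max 2 (2 * K * (8 / δ')), by positivity, le_max_of_le_left (by norm_num), ?_⟩
  intro J ω z P y A κ T u hω hz hP hκ0 hκT hA hyp
  have hκ2 : 2 ≤ κ := (le_max_left _ _).trans hκ0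
  have hκ : 0 < κ := by linarith
  have hT : 0 < T := by nlinarith
  have hKκ : 2 * K * κ ≤ δ' / 8 * T := by
    have h1 : 2 * K * (8 / δ') ≤ κ := (le_max_right _ _).trans hκ0
    have h2 : 2 * K ≤ δ' / 8 * κ := by
      have h3 : 2 * K = δ' / 8 * (2 * K * (8 / δ')) := by field_simp
      rw [h3]
      exact mul_le_mul_of_nonneg_left h1 (by positivity)
    calc 2 * K * κ ≤ δ' / 8 * κ * κ := mul_le_mul_of_nonneg_right h2 hκ.le
      _ = δ' / 8 * κ ^ 2 := by ring
      _ ≤ _ := mul_le_mul_of_nonneg_left hκT (by positivity)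
  -- windows
  have hwin : ∀ (x : ℕ → ℝ) (a : ℝ), ∫ v : ℝ, FX J ω z P x u v * Real.exp (-((v - a) / κ) ^ 2) ≤
      Real.sqrt Real.pi * κ * (A * ∑ p ∈ P, x p ^ 2) := by
    intro x a
    rw [FX_win hκ]
    exact mul_le_mul_of_nonneg_left (hyp x a) (by positivity)
  set Q2 := ∑ p ∈ P, y p ^ 2 * Real.exp (-(u - Real.log p) ^ 2) with hQ2
  set Q1 := ∑ p ∈ P, y p ^ 2 * Real.exp (-(u - Real.log p) ^ 2 / 2) with hQ1
  set Y := ∑ p ∈ P, |y p| with hY
  set W := ∑ i ∈ J, ω i with hW
  have hW0 : 0 ≤ W := Finset.sum_nonneg hω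
  have hx2 : ∑ p ∈ P, x2 u y p ^ 2 = Q2 := by
    refine Finset.sum_congr rfl fun p _ => ?_
    unfold x2
    rw [mul_pow, ← Real.exp_nat_mul]
    congr 2
    push_cast
    ring
  have hx1 : ∑ p ∈ P, x1 u y p ^ 2 = Q1 := by
    refine Finset.sum_congr rfl fun p _ => ?_
    unfold x1
    rw [mul_pow, ← Real.exp_nat_mul]
    congr 2
    push_cast
    ring
  have hQ10 : 0 ≤ Q1 := Finset.sum_nonneg fun p _ => by positivity
  have hQ20 : 0 ≤ Q2 := Finset.sum_nonneg fun p _ => by positivity
  set G2 := fun v : ℝ => FX J ω z P (x2 u y) u v with hG2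
  set G1 := fun v : ℝ => FX J ω z P (x1 u y) u v with hG1
  have hG2c : Continuous G2 := FX_cont _ _ _ _ _ _
  have hG1c : Continuous G1 := FX_cont _ _ _ _ _ _
  have hG20 : ∀ v, 0 ≤ G2 v := fun v => FX_nonneg hω _ _ _ _ _
  have hG10 : ∀ v, 0 ≤ G1 v := fun v => FX_nonneg hω _ _ _ _ _
  -- the middle part
  have hmid : ∫ v in T..(2 * T), G2 v ≤ (1 + δ' / 8) / (1 - δ' / 8) * (T * (A * Q2)) := by
    have h1 := interval_bound hG2c hG20 hκ (fun a => FX_win_int hκ J ω z P (x2 u y) u a)
      (fun a => hwin (x2 u y) a) (show T ≤ 2 * T by linarith) hK0.le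
    rw [hx2] at h1
    have hint0 : 0 ≤ ∫ v in T..(2 * T), G2 v :=
      intervalIntegral.integral_nonneg (by linarith) fun v _ => hG20 v
    have hr : 0 < Real.sqrt Real.pi * κ := by positivity
    have h2 : (1 - Real.exp (-K ^ 2)) * (∫ v in T..(2 * T), G2 v) ≤
        (2 * T - T + 2 * K * κ) * (A * Q2) := by
      have h3 : (Real.sqrt Real.pi * κ) * ((1 - Real.exp (-K ^ 2)) * (∫ v in T..(2 * T), G2 v)) ≤
          (Real.sqrt Real.pi * κ) * ((2 * T - T + 2 * K * κ) * (A * Q2)) := by
        calc _ = (1 - Real.exp (-K ^ 2)) * (Real.sqrt Real.pi * κ) * ∫ v in T..(2 * T), G2 v := by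
              ring
          _ ≤ _ := h1
          _ = _ := by ring
      exact le_of_mul_le_mul_left h3 hr
    have h4 : (1 - δ' / 8) * (∫ v in T..(2 * T), G2 v) ≤ (1 + δ' / 8) * (T * (A * Q2)) := by
      have h5 : (1 - δ' / 8) * (∫ v in T..(2 * T), G2 v) ≤
          (1 - Real.exp (-K ^ 2)) * (∫ v in T..(2 * T), G2 v) :=
        mul_le_mul_of_nonneg_right (by linarith) hint0
      have h6 : (2 * T - T + 2 * K * κ) * (A * Q2) ≤ (T + δ' / 8 * T) * (A * Q2) :=
        mul_le_mul_of_nonneg_right (by linarith) (by positivity)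
      calc _ ≤ _ := h5
        _ ≤ _ := h2
        _ ≤ _ := h6
        _ = _ := by ring
    rw [div_mul_eq_mul_div, le_div_iff₀ (by linarith)]
    linarith
  -- the function
  set Φ := fun t : ℝ => ∑ i ∈ J, ω i * ‖SS P (z i) y T u t‖ ^ 2 with hΦ
  have hΦc : Continuous Φ :=
    continuous_finsetSum _ fun i _ => continuous_const.mul ((SS_cont P (z i) y T u).norm.pow 2)
  have hΦ0 : ∀ t, 0 ≤ Φ t := fun t => Finset.sum_nonneg fun i hi => mul_nonneg (hω i hi) (by positivity)
  have hΦmid : ∀ t ∈ Icc (T + κ) (2 * T - κ), Φ t ≤ (1 + d) / (2 * Real.pi) * G2 t +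
      Cm * Real.exp (-κ ^ 2 / 2) * Y ^ 2 * W := by
    intro t ht
    calc Φ t ≤ ∑ i ∈ J, ω i * ((1 + d) / (2 * Real.pi) * ‖EX P (z i) (x2 u y) u t‖ ^ 2 +
          (1 + 1 / d) / (2 * Real.pi) * Real.exp (-κ ^ 2 / 2) * (∑ p ∈ P, |y p|) ^ 2) :=
          Finset.sum_le_sum fun i hi => mul_le_mul_of_nonneg_left
            (SS_near (hz i) hκ.le hd0 ht.1 ht.2) (hω i hi)
      _ = _ := by
          simp only [hG2, FX, mul_add, Finset.sum_add_distrib, Finset.mul_sum, hW, hCm, hY]
          congr 1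
          · refine Finset.sum_congr rfl fun i _ => ?_
            ring
          · refine Finset.sum_congr rfl fun i _ => ?_
            ring
  set H := fun v : ℝ => G1 v * (Real.exp (-((v - T) / κ) ^ 2) +
    Real.exp (-((v - 2 * T) / κ) ^ 2)) with hH
  have hHc : Continuous H := by
    rw [hH]
    exact hG1c.mul (by fun_prop)
  have hH0 : ∀ v, 0 ≤ H v := fun v => mul_nonneg (hG10 v) (by positivity)
  have hHi : Integrable H := by
    have h1 := (FX_win_int hκ J ω z P (x1 u y) u T).add (FX_win_int hκ J ω z P (x1 u y) u (2 * T))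
    refine h1.congr (Eventually.of_forall fun v => ?_)
    simp only [Pi.add_apply, hH, hG1]
    ring
  have hHint : ∫ v, H v ≤ 2 * (Real.sqrt Real.pi * κ * (A * Q1)) := by
    have e : ∫ v, H v = (∫ v, G1 v * Real.exp (-((v - T) / κ) ^ 2)) +
        ∫ v, G1 v * Real.exp (-((v - 2 * T) / κ) ^ 2) := by
      rw [← integral_add (FX_win_int hκ J ω z P (x1 u y) u T)
        (FX_win_int hκ J ω z P (x1 u y) u (2 * T))]
      refine integral_congr_ae (Eventually.of_forall fun v => ?_)
      simp only [hH]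
      ring
    have h1 := hwin (x1 u y) T
    have h2 := hwin (x1 u y) (2 * T)
    rw [hx1] at h1 h2
    rw [e]
    linarith
  set C2 := c1 ^ 2 * (2 * Real.sqrt Real.pi) * Real.exp 2 with hC2
  have hC20 : 0 < C2 := by
    have := c1_pos
    positivity
  have hΦedge : ∀ t : ℝ, t ∉ Icc (T + κ) (2 * T - κ) → ENNReal.ofReal (Φ t) ≤
      ENNReal.ofReal C2 * ∫⁻ τ : ℝ, ENNReal.ofReal (Real.exp (-(t - τ) ^ 2 / 8) * H ((t + τ) / 2)) := by
    intro t ht
    have ht' : t ≤ T + κ ∨ 2 * T - κ ≤ t := by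
      by_contra hcon
      push Not at hcon
      exact ht ⟨hcon.1.le, hcon.2.le⟩
    have hcont : Continuous fun τ : ℝ => Real.exp (-(t - τ) ^ 2 / 8) * H ((t + τ) / 2) := by
      fun_prop
    have h1 : Φ t ≤ C2 * ∫ τ in T..(2 * T), Real.exp (-(t - τ) ^ 2 / 8) * H ((t + τ) / 2) := by
      have hc3 : ∀ i, Continuous fun τ : ℝ => Real.exp (-(t - τ) ^ 2 / 4) *
          ‖EX P (z i) (x1 u y) u ((t + τ) / 2)‖ ^ 2 := by
        intro i
        have hE : Continuous (fun τ : ℝ => EX P (z i) (x1 u y) u ((t + τ) / 2)) :=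
          (EX_cont P (z i) (x1 u y) u).comp (by fun_prop)
        have hEn := hE.norm
        fun_prop
      calc Φ t ≤ ∑ i ∈ J, ω i * (c1 ^ 2 * (2 * Real.sqrt Real.pi) *
            ∫ τ in T..(2 * T), Real.exp (-(t - τ) ^ 2 / 4) *
              ‖EX P (z i) (x1 u y) u ((t + τ) / 2)‖ ^ 2) :=
            Finset.sum_le_sum fun i hi => mul_le_mul_of_nonneg_left (SS_cs hT) (hω i hi)
        _ = c1 ^ 2 * (2 * Real.sqrt Real.pi) * ∫ τ in T..(2 * T),
              Real.exp (-(t - τ) ^ 2 / 4) * G1 ((t + τ) / 2) := by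
            have e : ∀ τ : ℝ, Real.exp (-(t - τ) ^ 2 / 4) * G1 ((t + τ) / 2) =
                ∑ i ∈ J, ω i * (Real.exp (-(t - τ) ^ 2 / 4) *
                  ‖EX P (z i) (x1 u y) u ((t + τ) / 2)‖ ^ 2) := by
              intro τ
              simp only [hG1, FX, Finset.mul_sum]
              refine Finset.sum_congr rfl fun i _ => ?_
              ring
            simp_rw [e]
            rw [intervalIntegral.integral_finsetSum fun i _ =>
              ((hc3 i).intervalIntegrable _ _).const_mul _, Finset.mul_sum]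
            refine Finset.sum_congr rfl fun i _ => ?_
            rw [intervalIntegral.integral_const_mul]
            ring
        _ ≤ c1 ^ 2 * (2 * Real.sqrt Real.pi) * ∫ τ in T..(2 * T),
              Real.exp 2 * (Real.exp (-(t - τ) ^ 2 / 8) * H ((t + τ) / 2)) := by
            refine mul_le_mul_of_nonneg_left ?_ (by positivity)
            refine intervalIntegral.integral_mono_on (by linarith) ?_ ?_ ?_
            · refine Continuous.intervalIntegrable ?_ _ _
              fun_prop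
            · exact (continuous_const.mul hcont).intervalIntegrable _ _
            · intro τ hτ
              have h2 := edge_weight (t := t) hκ2 hτ.1 hτ.2 ht'
              have h3 := mul_le_mul_of_nonneg_right h2 (hG10 ((t + τ) / 2))
              refine h3.trans (le_of_eq ?_)
              simp only [hH]
              ring
        _ = _ := by
            rw [intervalIntegral.integral_const_mul]
            ring
    have h2 : ∫ τ in T..(2 * T), Real.exp (-(t - τ) ^ 2 / 8) * H ((t + τ) / 2) =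
        ∫ τ in Ioc T (2 * T), Real.exp (-(t - τ) ^ 2 / 8) * H ((t + τ) / 2) :=
      intervalIntegral.integral_of_le (by linarith)
    have hint : IntegrableOn (fun τ : ℝ => Real.exp (-(t - τ) ^ 2 / 8) * H ((t + τ) / 2))
        (Ioc T (2 * T)) :=
      (hcont.integrableOn_Icc (a := T) (b := 2 * T)).mono_set Ioc_subset_Icc_self
    calc ENNReal.ofReal (Φ t) ≤ ENNReal.ofReal (C2 * ∫ τ in T..(2 * T),
          Real.exp (-(t - τ) ^ 2 / 8) * H ((t + τ) / 2)) := ENNReal.ofReal_le_ofReal h1
      _ = ENNReal.ofReal C2 * ∫⁻ τ in Ioc T (2 * T),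
          ENNReal.ofReal (Real.exp (-(t - τ) ^ 2 / 8) * H ((t + τ) / 2)) := by
          rw [ENNReal.ofReal_mul hC20.le, h2, ofReal_integral_eq_lintegral_ofReal hint
            (Eventually.of_forall fun τ => mul_nonneg (Real.exp_pos _).le (hH0 _))]
      _ ≤ _ := by
          gcongr
          exact Measure.restrict_le_self
  -- total
  have hbd2 : 0 ≤ Cm * Real.exp (-κ ^ 2 / 2) * Y ^ 2 * W := by positivity
  have htot : ∫⁻ t : ℝ, ENNReal.ofReal (Φ t) ≤ ENNReal.ofReal
      (((1 + d) / (2 * Real.pi) * (∫ v in T..(2 * T), G2 v) +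
        Cm * Real.exp (-κ ^ 2 / 2) * Y ^ 2 * W * T) +
        C2 * (Real.sqrt (8 * Real.pi) * ∫ v, H v)) := by
    rw [← lintegral_add_compl _ (measurableSet_Icc (a := T + κ) (b := 2 * T - κ)),
      ENNReal.ofReal_add]
    · refine add_le_add ?_ ?_
      · have hcont : Continuous fun t : ℝ => (1 + d) / (2 * Real.pi) * G2 t +
            Cm * Real.exp (-κ ^ 2 / 2) * Y ^ 2 * W := by fun_prop
        calc ∫⁻ t in Icc (T + κ) (2 * T - κ), ENNReal.ofReal (Φ t)
            ≤ ∫⁻ t in Icc (T + κ) (2 * T - κ), ENNReal.ofReal ((1 + d) / (2 * Real.pi) * G2 t +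
              Cm * Real.exp (-κ ^ 2 / 2) * Y ^ 2 * W) :=
              setLIntegral_mono' measurableSet_Icc fun t ht =>
                ENNReal.ofReal_le_ofReal (hΦmid t ht)
          _ ≤ ∫⁻ t in Icc T (2 * T), ENNReal.ofReal ((1 + d) / (2 * Real.pi) * G2 t +
              Cm * Real.exp (-κ ^ 2 / 2) * Y ^ 2 * W) :=
              lintegral_mono_set (Icc_subset_Icc (by linarith) (by linarith))
          _ = ENNReal.ofReal (∫ t in Icc T (2 * T), ((1 + d) / (2 * Real.pi) * G2 t +
              Cm * Real.exp (-κ ^ 2 / 2) * Y ^ 2 * W)) := by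
              rw [ofReal_integral_eq_lintegral_ofReal hcont.integrableOn_Icc
                (Eventually.of_forall fun t => add_nonneg (mul_nonneg (by positivity) (hG20 t))
                  hbd2)]
          _ = _ := by
              congr 1
              have hc4 : Continuous fun t : ℝ => (1 + d) / (2 * Real.pi) * G2 t := by fun_prop
              rw [integral_Icc_eq_integral_Ioc, ← intervalIntegral.integral_of_le (by linarith),
                intervalIntegral.integral_add (hc4.intervalIntegrable _ _)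
                  (continuous_const.intervalIntegrable _ _), intervalIntegral.integral_const_mul,
                intervalIntegral.integral_const, smul_eq_mul]
              ring
      · calc ∫⁻ t in (Icc (T + κ) (2 * T - κ))ᶜ, ENNReal.ofReal (Φ t)
            ≤ ∫⁻ t in (Icc (T + κ) (2 * T - κ))ᶜ, ENNReal.ofReal C2 * ∫⁻ τ : ℝ,
              ENNReal.ofReal (Real.exp (-(t - τ) ^ 2 / 8) * H ((t + τ) / 2)) :=
              setLIntegral_mono' measurableSet_Icc.compl fun t ht => hΦedge t ht
          _ ≤ ∫⁻ t : ℝ, ENNReal.ofReal C2 * ∫⁻ τ : ℝ,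
              ENNReal.ofReal (Real.exp (-(t - τ) ^ 2 / 8) * H ((t + τ) / 2)) :=
              setLIntegral_le_lintegral _ _
          _ = _ := by
              rw [lintegral_const_mul', edge_double hHc hH0 hHi, ENNReal.ofReal_mul hC20.le]
              exact ENNReal.ofReal_ne_top
    · refine add_nonneg (mul_nonneg (by positivity) ?_) (mul_nonneg hbd2 hT.le)
      exact intervalIntegral.integral_nonneg (by linarith) fun v _ => hG20 v
    · exact mul_nonneg hC20.le (mul_nonneg (by positivity) (integral_nonneg hH0))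
  have hmain : ∫ t, Φ t ≤ ((1 + d) / (2 * Real.pi) * (∫ v in T..(2 * T), G2 v) +
        Cm * Real.exp (-κ ^ 2 / 2) * Y ^ 2 * W * T) +
        C2 * (Real.sqrt (8 * Real.pi) * ∫ v, H v) := by
    rw [integral_eq_lintegral_of_nonneg_ae (Eventually.of_forall hΦ0)
      hΦc.aestronglyMeasurable]
    refine ENNReal.toReal_le_of_le_ofReal ?_ htot
    refine add_nonneg (add_nonneg (mul_nonneg (by positivity) ?_) (mul_nonneg hbd2 hT.le)) ?_
    · exact intervalIntegral.integral_nonneg (by linarith) fun v _ => hG20 v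
    · exact mul_nonneg hC20.le (mul_nonneg (by positivity) (integral_nonneg hH0))
  refine hmain.trans ?_
  -- numerics
  have hAQ2 : 0 ≤ T * (A * Q2) := by positivity
  have n1 : (1 + d) / (2 * Real.pi) * (∫ v in T..(2 * T), G2 v) ≤
      (1 + δ) * A * (T / (2 * Real.pi)) * Q2 := by
    have h1 : (1 + d) / (2 * Real.pi) * (∫ v in T..(2 * T), G2 v) ≤
        (1 + d) / (2 * Real.pi) * ((1 + δ' / 8) / (1 - δ' / 8) * (T * (A * Q2))) :=
      mul_le_mul_of_nonneg_left hmid (by positivity)
    have h2 : (1 + d) * ((1 + δ' / 8) / (1 - δ' / 8)) ≤ 1 + δ := by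
      have h3 : (1 + d) * ((1 + δ' / 8) / (1 - δ' / 8)) ≤ 1 + δ' := by
        rw [mul_div_assoc', div_le_iff₀ (by linarith), hd]
        nlinarith
      linarith
    calc _ ≤ _ := h1
      _ = ((1 + d) * ((1 + δ' / 8) / (1 - δ' / 8))) * (T * (A * Q2) / (2 * Real.pi)) := by
          field_simp
      _ ≤ (1 + δ) * (T * (A * Q2) / (2 * Real.pi)) :=
          mul_le_mul_of_nonneg_right h2 (by positivity)
      _ = _ := by ring
  have n2 : Cm * Real.exp (-κ ^ 2 / 2) * Y ^ 2 * W * T ≤
      Cm * W * T * Real.exp (-κ ^ 2 / 16) * Y ^ 2 := by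
    have h1 : Real.exp (-κ ^ 2 / 2) ≤ Real.exp (-κ ^ 2 / 16) :=
      Real.exp_le_exp.2 (by nlinarith)
    calc _ = (Cm * W * T * Y ^ 2) * Real.exp (-κ ^ 2 / 2) := by ring
      _ ≤ (Cm * W * T * Y ^ 2) * Real.exp (-κ ^ 2 / 16) :=
          mul_le_mul_of_nonneg_left h1 (by positivity)
      _ = _ := by ring
  have n3 : C2 * (Real.sqrt (8 * Real.pi) * ∫ v, H v) ≤ Ce * A * κ * Q1 := by
    calc _ ≤ C2 * (Real.sqrt (8 * Real.pi) * (2 * (Real.sqrt Real.pi * κ * (A * Q1)))) := by
          refine mul_le_mul_of_nonneg_left (mul_le_mul_of_nonneg_left hHint ?_) hC20.le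
          positivity
      _ = _ := by
          rw [hCe, hC2]
          ring
  have n4 : Ce * A * κ * Q1 ≤ (Ce + Cm) * A * κ * Q1 := by
    have h1 : 0 ≤ Cm * A * κ * Q1 := by positivity
    have h2 : (Ce + Cm) * A * κ * Q1 = Ce * A * κ * Q1 + Cm * A * κ * Q1 := by ring
    linarith
  have n5 : Cm * W * T * Real.exp (-κ ^ 2 / 16) * Y ^ 2 ≤
      (Ce + Cm) * W * T * Real.exp (-κ ^ 2 / 16) * Y ^ 2 := by
    have h1 : 0 ≤ Ce * W * T * Real.exp (-κ ^ 2 / 16) * Y ^ 2 := by positivity
    have h2 : (Ce + Cm) * W * T * Real.exp (-κ ^ 2 / 16) * Y ^ 2 =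
        Ce * W * T * Real.exp (-κ ^ 2 / 16) * Y ^ 2 +
          Cm * W * T * Real.exp (-κ ^ 2 / 16) * Y ^ 2 := by ring
    linarith
  linarith

end Pool.Agent.N767.QF
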