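import Pool.Agent.N880.QF.Stm
import Pool.Agent.H385R2.Cut

/-!
QF/L2: Gaussian windows (part 1).
-/

set_option autoImplicit false

open Complex Filter Topology MeasureTheory Set
open Pool.Agent.N880.QF

namespace Pool.Agent.N767.QF

/-- the Dirichlet polynomial -/
noncomputable def EX (P : Finset ℕ) (z x : ℕ → ℝ) (u v : ℝ) : ℂ :=
  ∑ p ∈ P, ((z p * x p : ℝ) : ℂ) * cexp (I * v * (u - Real.log p))

/-- the weighted sum of the squares -/
noncomputable def FX (J : Finset ℤ) (ω : ℤ → ℝ) (z : ℤ → ℕ → ℝ) (P : Finset ℕ) (x : ℕ → ℝ)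
    (u v : ℝ) : ℝ := ∑ i ∈ J, ω i * ‖EX P (z i) x u v‖ ^ 2

theorem EX_cont (P : Finset ℕ) (z x : ℕ → ℝ) (u : ℝ) : Continuous (fun v : ℝ => EX P z x u v) := by
  unfold EX
  fun_prop

theorem FX_cont (J : Finset ℤ) (ω : ℤ → ℝ) (z : ℤ → ℕ → ℝ) (P : Finset ℕ) (x : ℕ → ℝ) (u : ℝ) :
    Continuous (fun v : ℝ => FX J ω z P x u v) := by
  unfold FX
  refine continuous_finsetSum _ fun i _ => ?_
  exact continuous_const.mul ((EX_cont P (z i) x u).norm.pow 2)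

theorem FX_nonneg {J : Finset ℤ} {ω : ℤ → ℝ} (hω : ∀ i ∈ J, 0 ≤ ω i) (z : ℤ → ℕ → ℝ)
    (P : Finset ℕ) (x : ℕ → ℝ) (u v : ℝ) : 0 ≤ FX J ω z P x u v :=
  Finset.sum_nonneg fun i hi => mul_nonneg (hω i hi) (by positivity)

theorem EX_sq (P : Finset ℕ) (z x : ℕ → ℝ) (u v : ℝ) : ‖EX P z x u v‖ ^ 2 =
    ∑ p ∈ P, ∑ p' ∈ P, x p * x p' * (z p * z p') *
      Real.cos (v * (Real.log p - Real.log p')) := by
  have h1 : ((‖EX P z x u v‖ ^ 2 : ℝ) : ℂ) = EX P z x u v * (starRingEnd ℂ) (EX P z x u v) := by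
    rw [Complex.mul_conj, Complex.normSq_eq_norm_sq]
  have h2 : ‖EX P z x u v‖ ^ 2 = (EX P z x u v * (starRingEnd ℂ) (EX P z x u v)).re := by
    rw [← h1, Complex.ofReal_re]
  rw [h2]
  unfold EX
  rw [map_sum, Finset.sum_mul_sum, Complex.re_sum]
  refine Finset.sum_congr rfl fun p _ => ?_
  rw [Complex.re_sum]
  refine Finset.sum_congr rfl fun p' _ => ?_
  rw [map_mul, Complex.conj_ofReal, ← Complex.exp_conj]
  have h3 : ((z p * x p : ℝ) : ℂ) * cexp (I * v * (u - Real.log p)) *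
      (((z p' * x p' : ℝ) : ℂ) * cexp ((starRingEnd ℂ) (I * v * (u - Real.log p')))) =
      ((x p * x p' * (z p * z p') : ℝ) : ℂ) * cexp (((v * (Real.log p' - Real.log p) : ℝ) : ℂ) * I) := by
    have h4 : (starRingEnd ℂ) (I * v * (u - Real.log p')) = -(I * v * (u - Real.log p')) := by
      simp only [map_mul, map_sub, Complex.conj_I, Complex.conj_ofReal]
      ring
    rw [h4]
    have h5 : cexp (((v * (Real.log p' - Real.log p) : ℝ) : ℂ) * I) =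
        cexp (I * v * (u - Real.log p)) * cexp (-(I * v * (u - Real.log p'))) := by
      rw [← Complex.exp_add]
      congr 1
      push_cast
      ring
    rw [h5]
    push_cast
    ring
  rw [h3, Complex.re_ofReal_mul, Complex.exp_ofReal_mul_I_re]
  congr 1
  rw [← Real.cos_neg]
  congr 1
  ring

theorem win_int {κ : ℝ} (hκ : 0 < κ) (a : ℝ) :
    Integrable (fun v : ℝ => Real.exp (-((v - a) / κ) ^ 2)) := by
  have h := H385.Cut.int_gauss_shift (b := 1 / κ ^ 2) (by positivity) a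
  refine h.congr (Eventually.of_forall fun v => ?_)
  simp only
  congr 1
  field_simp

theorem cos_win_int {κ : ℝ} (hκ : 0 < κ) (a b : ℝ) :
    Integrable (fun v : ℝ => Real.cos (v * b) * Real.exp (-((v - a) / κ) ^ 2)) := by
  refine (win_int hκ a).mono' (by fun_prop) (Eventually.of_forall fun v => ?_)
  rw [norm_mul, Real.norm_eq_abs, Real.norm_eq_abs, Real.abs_exp]
  have := Real.abs_cos_le_one (v * b)
  nlinarith [Real.exp_pos (-((v - a) / κ) ^ 2)]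

theorem cos_win {κ : ℝ} (hκ : 0 < κ) (a b : ℝ) :
    ∫ v : ℝ, Real.cos (v * b) * Real.exp (-((v - a) / κ) ^ 2) =
      Real.sqrt Real.pi * κ * (Real.cos (a * b) * Real.exp (-(κ ^ 2 * b ^ 2 / 4))) := by
  have hκ2 : (0 : ℝ) < κ ^ 2 := by positivity
  have hκc : (κ : ℂ) ≠ 0 := by exact_mod_cast hκ.ne'
  have h1 : ∫ v : ℝ, cexp ((-(1 / (κ : ℂ) ^ 2)) * (v : ℂ) ^ 2 + (2 * a / (κ : ℂ) ^ 2 + I * b) * v +
      (-((a : ℂ) ^ 2 / (κ : ℂ) ^ 2))) = _ :=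
    integral_cexp_quadratic (b := -(1 / (κ : ℂ) ^ 2)) (by
      have : (-(1 / (κ : ℂ) ^ 2)) = ((-(1 / κ ^ 2) : ℝ) : ℂ) := by push_cast; ring
      rw [this, Complex.ofReal_re]
      have : 0 < 1 / κ ^ 2 := by positivity
      linarith) (2 * a / (κ : ℂ) ^ 2 + I * b) (-((a : ℂ) ^ 2 / (κ : ℂ) ^ 2))
  have h2 : (Real.pi / -(-(1 / (κ : ℂ) ^ 2)) : ℂ) ^ (1 / 2 : ℂ) = ((Real.sqrt Real.pi * κ : ℝ) : ℂ) := by
    have e : (Real.pi / -(-(1 / (κ : ℂ) ^ 2)) : ℂ) = ((Real.pi * κ ^ 2 : ℝ) : ℂ) := by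
      push_cast
      field_simp
    rw [e]
    have e2 : Real.sqrt Real.pi * κ = Real.sqrt (Real.pi * κ ^ 2) := by
      rw [Real.sqrt_mul Real.pi_pos.le, Real.sqrt_sq hκ.le]
    rw [e2, Real.sqrt_eq_rpow, Complex.ofReal_cpow (by positivity)]
    push_cast
    norm_num
  have h3 : -((a : ℂ) ^ 2 / (κ : ℂ) ^ 2) - (2 * a / (κ : ℂ) ^ 2 + I * b) ^ 2 / (4 * -(1 / (κ : ℂ) ^ 2)) =
      ((a * b : ℝ) : ℂ) * I + ((-(κ ^ 2 * b ^ 2 / 4) : ℝ) : ℂ) := by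
    have hI : (I : ℂ) ^ 2 = -1 := I_sq
    push_cast
    field_simp
    ring_nf
    rw [hI]
    ring
  rw [h2, h3] at h1
  have h4 : ∀ v : ℝ, Real.cos (v * b) * Real.exp (-((v - a) / κ) ^ 2) =
      (cexp ((-(1 / (κ : ℂ) ^ 2)) * (v : ℂ) ^ 2 + (2 * a / (κ : ℂ) ^ 2 + I * b) * v +
      (-((a : ℂ) ^ 2 / (κ : ℂ) ^ 2)))).re := by
    intro v
    have e : (-(1 / (κ : ℂ) ^ 2)) * (v : ℂ) ^ 2 + (2 * a / (κ : ℂ) ^ 2 + I * b) * v +
        (-((a : ℂ) ^ 2 / (κ : ℂ) ^ 2)) = ((-((v - a) / κ) ^ 2 : ℝ) : ℂ) + ((v * b : ℝ) : ℂ) * I := by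
      push_cast
      field_simp
      ring
    rw [e, Complex.exp_add, ← Complex.ofReal_exp, Complex.re_ofReal_mul, Complex.exp_ofReal_mul_I_re]
    ring
  have hint : Integrable (fun v : ℝ => cexp ((-(1 / (κ : ℂ) ^ 2)) * (v : ℂ) ^ 2 +
      (2 * a / (κ : ℂ) ^ 2 + I * b) * v + (-((a : ℂ) ^ 2 / (κ : ℂ) ^ 2)))) := by
    refine (win_int hκ a).mono' (by fun_prop) (Eventually.of_forall fun v => ?_)
    have e : (-(1 / (κ : ℂ) ^ 2)) * (v : ℂ) ^ 2 + (2 * a / (κ : ℂ) ^ 2 + I * b) * v +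
        (-((a : ℂ) ^ 2 / (κ : ℂ) ^ 2)) = ((-((v - a) / κ) ^ 2 : ℝ) : ℂ) + ((v * b : ℝ) : ℂ) * I := by
      push_cast
      field_simp
      ring
    rw [e, Complex.exp_add, norm_mul, Complex.norm_exp_ofReal_mul_I, mul_one, ← Complex.ofReal_exp,
      Complex.norm_real, Real.norm_of_nonneg (Real.exp_pos _).le]
  simp_rw [h4]
  have h5 := integral_re hint
  simp only [RCLike.re_to_complex] at h5
  rw [h5, h1, Complex.exp_add, ← Complex.ofReal_exp]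
  have h6 : ((Real.sqrt Real.pi * κ : ℝ) : ℂ) * (cexp (((a * b : ℝ) : ℂ) * I) *
      ((Real.exp (-(κ ^ 2 * b ^ 2 / 4)) : ℝ) : ℂ)) =
      ((Real.sqrt Real.pi * κ * Real.exp (-(κ ^ 2 * b ^ 2 / 4)) : ℝ) : ℂ) *
        cexp (((a * b : ℝ) : ℂ) * I) := by
    push_cast
    ring
  rw [h6, Complex.re_ofReal_mul, Complex.exp_ofReal_mul_I_re]
  ring

theorem EX_win_int {κ : ℝ} (hκ : 0 < κ) (P : Finset ℕ) (z x : ℕ → ℝ) (u a : ℝ) :
    Integrable (fun v : ℝ => ‖EX P z x u v‖ ^ 2 * Real.exp (-((v - a) / κ) ^ 2)) := by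
  simp_rw [EX_sq, Finset.sum_mul]
  refine integrable_finsetSum _ fun p _ => integrable_finsetSum _ fun p' _ => ?_
  simp_rw [mul_assoc (x p * x p' * (z p * z p'))]
  exact (cos_win_int hκ a _).const_mul _

/-- the Gaussian window as an integral -/
theorem EX_win {κ : ℝ} (hκ : 0 < κ) (P : Finset ℕ) (z x : ℕ → ℝ) (u a : ℝ) :
    ∫ v : ℝ, ‖EX P z x u v‖ ^ 2 * Real.exp (-((v - a) / κ) ^ 2) =
      Real.sqrt Real.pi * κ * GG P x a κ z := by
  unfold GG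
  simp_rw [EX_sq, Finset.sum_mul, Finset.mul_sum]
  rw [integral_finsetSum _ fun p _ => integrable_finsetSum _ fun p' _ => by
    simp_rw [mul_assoc (x p * x p' * (z p * z p'))]
    exact (cos_win_int hκ a _).const_mul _]
  refine Finset.sum_congr rfl fun p _ => ?_
  rw [integral_finsetSum _ fun p' _ => by
    simp_rw [mul_assoc (x p * x p' * (z p * z p'))]
    exact (cos_win_int hκ a _).const_mul _]
  refine Finset.sum_congr rfl fun p' _ => ?_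
  simp_rw [mul_assoc (x p * x p' * (z p * z p'))]
  rw [integral_const_mul, cos_win hκ]
  ring

theorem FX_win_int {κ : ℝ} (hκ : 0 < κ) (J : Finset ℤ) (ω : ℤ → ℝ) (z : ℤ → ℕ → ℝ)
    (P : Finset ℕ) (x : ℕ → ℝ) (u a : ℝ) :
    Integrable (fun v : ℝ => FX J ω z P x u v * Real.exp (-((v - a) / κ) ^ 2)) := by
  unfold FX
  simp_rw [Finset.sum_mul, mul_assoc]
  exact integrable_finsetSum _ fun i _ => (EX_win_int hκ P (z i) x u a).const_mul _

theorem FX_win {κ : ℝ} (hκ : 0 < κ) (J : Finset ℤ) (ω : ℤ → ℝ) (z : ℤ → ℕ → ℝ)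
    (P : Finset ℕ) (x : ℕ → ℝ) (u a : ℝ) :
    ∫ v : ℝ, FX J ω z P x u v * Real.exp (-((v - a) / κ) ^ 2) =
      Real.sqrt Real.pi * κ * ∑ i ∈ J, ω i * GG P x a κ (z i) := by
  unfold FX
  simp_rw [Finset.sum_mul, mul_assoc]
  rw [integral_finsetSum _ fun i _ => (EX_win_int hκ P (z i) x u a).const_mul _, Finset.mul_sum,
    Finset.mul_sum]
  refine Finset.sum_congr rfl fun i _ => ?_
  rw [integral_const_mul, EX_win hκ]
  ring

end Pool.Agent.N767.QF
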