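import Pool.Agent.N767.QF.Win1

/-!
QF/L2: Gaussian windows (part 2): intervals and edges.
-/

set_option autoImplicit false

open Complex Filter Topology MeasureTheory Set
open Pool.Agent.N880.QF

namespace Pool.Agent.N767.QF

/-- from windows to intervals -/
theorem interval_bound {G : ℝ → ℝ} (hG : Continuous G) (h0 : ∀ v, 0 ≤ G v) {κ M : ℝ} (hκ : 0 < κ)
    (hi : ∀ a : ℝ, Integrable (fun v => G v * Real.exp (-((v - a) / κ) ^ 2)))
    (hM : ∀ a : ℝ, ∫ v, G v * Real.exp (-((v - a) / κ) ^ 2) ≤ M) {α β K : ℝ} (hαβ : α ≤ β)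
    (hK : 0 ≤ K) :
    (1 - Real.exp (-K ^ 2)) * (Real.sqrt Real.pi * κ) * ∫ v in α..β, G v ≤
      (β - α + 2 * K * κ) * M := by
  have hb : (0 : ℝ) < 1 / κ ^ 2 := by positivity
  have hs : Real.sqrt (Real.pi / (1 / κ ^ 2)) = Real.sqrt Real.pi * κ := by
    have : Real.pi / (1 / κ ^ 2) = Real.pi * κ ^ 2 := by field_simp
    rw [this, Real.sqrt_mul Real.pi_pos.le, Real.sqrt_sq hκ.le]
  have hw : ∀ v a : ℝ, Real.exp (-((v - a) / κ) ^ 2) = Real.exp (-(1 / κ ^ 2) * (a - v) ^ 2) := by
    intro v a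
    congr 1
    field_simp
    ring
  have hKκ : 0 ≤ K * κ := by positivity
  -- step 1
  have step1 : ∀ v ∈ Icc α β, (1 - Real.exp (-K ^ 2)) * (Real.sqrt Real.pi * κ) ≤
      ∫ a in (α - K * κ)..(β + K * κ), Real.exp (-((v - a) / κ) ^ 2) := by
    intro v hv
    simp_rw [hw]
    rw [H385.Cut.split3 (H385.Cut.int_gauss_shift hb v), H385.Cut.integral_gauss_shift, hs]
    have h1 := H385.Cut.tail_Iic hb (t := v) (a := α - K * κ) (by linarith [hv.1])
    have h2 := H385.Cut.tail_Ioi hb (t := v) (a := β + K * κ) (by linarith [hv.2])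
    rw [hs] at h1 h2
    have h3 : Real.exp (-(1 / κ ^ 2) * (α - K * κ - v) ^ 2) ≤ Real.exp (-K ^ 2) := by
      apply Real.exp_le_exp.2
      have h4 : (K * κ) ^ 2 ≤ (α - K * κ - v) ^ 2 := by nlinarith [hv.1]
      have h5 : K ^ 2 = 1 / κ ^ 2 * (K * κ) ^ 2 := by field_simp
      rw [h5]
      nlinarith [mul_le_mul_of_nonneg_left h4 hb.le]
    have h3' : Real.exp (-(1 / κ ^ 2) * (β + K * κ - v) ^ 2) ≤ Real.exp (-K ^ 2) := by
      apply Real.exp_le_exp.2
      have h4 : (K * κ) ^ 2 ≤ (β + K * κ - v) ^ 2 := by nlinarith [hv.2]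
      have h5 : K ^ 2 = 1 / κ ^ 2 * (K * κ) ^ 2 := by field_simp
      rw [h5]
      nlinarith [mul_le_mul_of_nonneg_left h4 hb.le]
    have h6 : 0 < Real.sqrt Real.pi * κ := mul_pos H385.Cut.sqrt_pi_pos hκ
    nlinarith [mul_le_mul_of_nonneg_left h3 h6.le, mul_le_mul_of_nonneg_left h3' h6.le]
  have hc2 : Continuous (fun p : ℝ × ℝ => G p.1 * Real.exp (-((p.1 - p.2) / κ) ^ 2)) := by
    fun_prop
  have hc3 : Continuous (fun v => ∫ a in (α - K * κ)..(β + K * κ),
      Real.exp (-((v - a) / κ) ^ 2)) := by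
    apply intervalIntegral.continuous_parametric_intervalIntegral_of_continuous'
    simp only [Function.uncurry_def]
    fun_prop
  have step2 : (1 - Real.exp (-K ^ 2)) * (Real.sqrt Real.pi * κ) * ∫ v in α..β, G v ≤
      ∫ v in α..β, ∫ a in (α - K * κ)..(β + K * κ), G v * Real.exp (-((v - a) / κ) ^ 2) := by
    rw [← intervalIntegral.integral_const_mul]
    refine intervalIntegral.integral_mono_on hαβ ((continuous_const.mul hG).intervalIntegrable _ _)
      ?_ ?_
    · simp_rw [intervalIntegral.integral_const_mul]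
      exact (hG.mul hc3).intervalIntegrable _ _
    · intro v hv
      rw [intervalIntegral.integral_const_mul, mul_comm]
      exact mul_le_mul_of_nonneg_left (step1 v hv) (h0 v)
  refine step2.trans ?_
  rw [intervalIntegral_intervalIntegral_swap (F := fun v a => G v * Real.exp (-((v - a) / κ) ^ 2))]
  · have hle : α - K * κ ≤ β + K * κ := by linarith
    have hc4 : Continuous (fun a => ∫ v in α..β, G v * Real.exp (-((v - a) / κ) ^ 2)) := by
      apply intervalIntegral.continuous_parametric_intervalIntegral_of_continuous'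
      simp only [Function.uncurry_def]
      fun_prop
    calc ∫ a in (α - K * κ)..(β + K * κ), ∫ v in α..β, G v * Real.exp (-((v - a) / κ) ^ 2)
        ≤ ∫ a in (α - K * κ)..(β + K * κ), M := by
          refine intervalIntegral.integral_mono_on hle (hc4.intervalIntegrable _ _)
            (by simp) fun a _ => ?_
          refine (H385.Cut.interval_le (hi a) (fun v => ?_) hαβ).trans (hM a)
          exact mul_nonneg (h0 v) (Real.exp_pos _).le
      _ = (β - α + 2 * K * κ) * M := by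
          rw [intervalIntegral.integral_const, smul_eq_mul]
          ring
  · have : IntegrableOn (fun p : ℝ × ℝ => G p.1 * Real.exp (-((p.1 - p.2) / κ) ^ 2))
        (uIcc α β ×ˢ uIcc (α - K * κ) (β + K * κ)) :=
      hc2.continuousOn.integrableOn_compact (isCompact_uIcc.prod isCompact_uIcc)
    exact this.mono_set (Set.prod_mono uIoc_subset_uIcc uIoc_subset_uIcc)

/-- the double integral over the edges -/
theorem edge_double {H : ℝ → ℝ} (hH : Continuous H) (h0 : ∀ v, 0 ≤ H v) (hi : Integrable H) :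
    ∫⁻ t : ℝ, ∫⁻ τ : ℝ, ENNReal.ofReal (Real.exp (-(t - τ) ^ 2 / 8) * H ((t + τ) / 2)) =
      ENNReal.ofReal (Real.sqrt (8 * Real.pi) * ∫ v, H v) := by
  have hk : Integrable (fun w : ℝ => Real.exp (-w ^ 2 / 8)) := by
    have h := H385.Cut.int_gauss_shift (b := 1 / 8) (by norm_num) 0
    refine h.congr (Eventually.of_forall fun v => ?_)
    simp only
    congr 1
    ring
  have hkv : ∫ w : ℝ, Real.exp (-w ^ 2 / 8) = Real.sqrt (8 * Real.pi) := by
    have h := H385.Cut.integral_gauss_shift (1 / 8) 0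
    rw [show Real.pi / (1 / 8) = 8 * Real.pi by ring] at h
    rw [← h]
    congr 1
    ext v
    congr 1
    ring
  have h1 : ∀ t : ℝ, ∫⁻ τ : ℝ, ENNReal.ofReal (Real.exp (-(t - τ) ^ 2 / 8) * H ((t + τ) / 2)) =
      ∫⁻ w : ℝ, ENNReal.ofReal (Real.exp (-w ^ 2 / 8) * H (t - w / 2)) := by
    intro t
    rw [← lintegral_sub_left_eq_self (fun w : ℝ => ENNReal.ofReal (Real.exp (-w ^ 2 / 8) *
      H (t - w / 2))) t]
    refine lintegral_congr fun τ => ?_
    congr 3
    ring
  simp_rw [h1]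
  rw [lintegral_lintegral_swap]
  · have h2 : ∀ w : ℝ, ∫⁻ t : ℝ, ENNReal.ofReal (Real.exp (-w ^ 2 / 8) * H (t - w / 2)) =
        ENNReal.ofReal (Real.exp (-w ^ 2 / 8)) * ENNReal.ofReal (∫ v, H v) := by
      intro w
      rw [lintegral_sub_right_eq_self (fun v : ℝ => ENNReal.ofReal (Real.exp (-w ^ 2 / 8) * H v))
        (w / 2)]
      simp_rw [ENNReal.ofReal_mul (Real.exp_pos _).le]
      rw [lintegral_const_mul _ (by fun_prop),
        ofReal_integral_eq_lintegral_ofReal hi (Eventually.of_forall h0)]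
    simp_rw [h2]
    rw [lintegral_mul_const _ (by fun_prop),
      ← ofReal_integral_eq_lintegral_ofReal hk (Eventually.of_forall fun w => (Real.exp_pos _).le),
      hkv, ENNReal.ofReal_mul (Real.sqrt_nonneg _)]
  · have : Continuous (fun p : ℝ × ℝ => Real.exp (-p.2 ^ 2 / 8) * H (p.1 - p.2 / 2)) := by
      fun_prop
    exact (ENNReal.continuous_ofReal.comp this).measurable.aemeasurable

/-- weighted Cauchy-Schwarz -/
theorem cs {w f : ℝ → ℝ} (hw : Continuous w) (hf : Continuous f) (hw0 : ∀ τ, 0 < w τ) {a b : ℝ}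
    (hab : a < b) :
    (∫ τ in a..b, w τ * f τ) ^ 2 ≤ (∫ τ in a..b, w τ) * ∫ τ in a..b, w τ * f τ ^ 2 := by
  have hA : 0 < ∫ τ in a..b, w τ :=
    intervalIntegral.intervalIntegral_pos_of_pos (hw.intervalIntegrable _ _) hw0 hab
  set A := ∫ τ in a..b, w τ with hAdef
  set B := ∫ τ in a..b, w τ * f τ with hBdef
  set C := ∫ τ in a..b, w τ * f τ ^ 2 with hCdef
  have h1 : 0 ≤ ∫ τ in a..b, w τ * (A * f τ - B) ^ 2 :=
    intervalIntegral.integral_nonneg hab.le fun τ _ => mul_nonneg (hw0 τ).le (sq_nonneg _)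
  have h2 : ∫ τ in a..b, w τ * (A * f τ - B) ^ 2 = A ^ 2 * C - 2 * A * B * B + B ^ 2 * A := by
    have e : ∀ τ, w τ * (A * f τ - B) ^ 2 =
        A ^ 2 * (w τ * f τ ^ 2) - 2 * A * B * (w τ * f τ) + B ^ 2 * w τ := fun τ => by ring
    simp_rw [e]
    rw [intervalIntegral.integral_add, intervalIntegral.integral_sub,
      intervalIntegral.integral_const_mul, intervalIntegral.integral_const_mul,
      intervalIntegral.integral_const_mul]
    all_goals
      refine Continuous.intervalIntegrable ?_ _ _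
      fun_prop
  rw [h2] at h1
  have h3 : 0 ≤ A * (A * C - B ^ 2) := by nlinarith
  have h4 := nonneg_of_mul_nonneg_right h3 hA
  linarith

end Pool.Agent.N767.QF
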