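import Pool.Agent.N767.QF.Win2

/-!
QF/L2: Gaussian windows (part 3): the window lemma.
-/

set_option autoImplicit false

open Complex Filter Topology MeasureTheory Set
open H385 (bt wt)
open Pool.Agent.N880.QF

namespace Pool.Agent.N767.QF

/-- the constant in front of the integral defining `bt` -/
noncomputable def c1 : ℝ := 1 / (2 * Real.sqrt Real.pi) * (1 / Real.sqrt (2 * Real.pi))

theorem c1_pos : 0 < c1 := by
  unfold c1
  have := H385.Cut.sqrt_pi_pos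
  have := H385.Cut.sqrt_2pi_pos
  positivity

theorem full_eq (u t ℓ : ℝ) : ∫ τ : ℝ,
    (Real.exp (-(t - τ) ^ 2 / 4) : ℂ) * cexp (I * ((t + τ) / 2) * (u - ℓ)) =
    ((2 * Real.sqrt Real.pi * Real.exp (-(u - ℓ) ^ 2 / 4) : ℝ) : ℂ) * cexp (I * t * (u - ℓ)) := by
  have h1 : ∫ τ : ℝ, (Real.exp (-(t - τ) ^ 2 / 4) : ℂ) * cexp (I * ((t + τ) / 2) * (u - ℓ)) =
      ∫ τ : ℝ, cexp ((t * (u - ℓ) : ℝ) * I) * (Real.exp (-(u - ℓ) ^ 2 / 4) : ℂ) *
        cexp (-(1 / 4 : ℂ) * (((τ - t : ℝ) : ℂ) + ((-(u - ℓ) : ℝ) : ℂ) * I) ^ 2) := by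
    congr 1
    ext τ
    rw [Complex.ofReal_exp, Complex.ofReal_exp, ← Complex.exp_add, ← Complex.exp_add,
      ← Complex.exp_add]
    congr 1
    push_cast
    have hI : (I : ℂ) ^ 2 = -1 := I_sq
    ring_nf
    rw [hI]
    ring
  rw [h1, integral_const_mul, integral_sub_right_eq_self
    (fun s : ℝ => cexp (-(1 / 4 : ℂ) * ((s : ℂ) + ((-(u - ℓ) : ℝ) : ℂ) * I) ^ 2)) t,
    GaussianFourier.integral_cexp_neg_mul_sq_add_real_mul_I (by norm_num)]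
  have h2 : (Real.pi / (1 / 4) : ℂ) ^ (1 / 2 : ℂ) = ((2 * Real.sqrt Real.pi : ℝ) : ℂ) := by
    rw [← H385.Cut.sqrt_pi_quarter, Real.sqrt_eq_rpow, Complex.ofReal_cpow (by positivity)]
    push_cast
    norm_num
  rw [h2]
  have h3 : cexp (I * t * (u - ℓ)) = cexp ((t * (u - ℓ) : ℝ) * I) := by
    congr 1
    push_cast
    ring
  rw [h3]
  push_cast
  ring

/-- `bt` in the middle of the interval -/
theorem bt_near {T κ u t ℓ : ℝ} (hκ : 0 ≤ κ) (h1 : T + κ ≤ t) (h2 : t ≤ 2 * T - κ) :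
    ‖bt T u t ℓ - ((1 / Real.sqrt (2 * Real.pi) * Real.exp (-(u - ℓ) ^ 2 / 2) : ℝ) : ℂ) *
      cexp (I * t * (u - ℓ))‖ ≤ 1 / Real.sqrt (2 * Real.pi) * Real.exp (-κ ^ 2 / 4) := by
  have hJ : H385.Cut.JJ T u t ℓ = (∫ τ : ℝ,
        (Real.exp (-(t - τ) ^ 2 / 4) : ℂ) * cexp (I * ((t + τ) / 2) * (u - ℓ))) -
        (∫ τ : ℝ in Iic T,
        (Real.exp (-(t - τ) ^ 2 / 4) : ℂ) * cexp (I * ((t + τ) / 2) * (u - ℓ))) -
        (∫ τ : ℝ in Ioi (2 * T),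
        (Real.exp (-(t - τ) ^ 2 / 4) : ℂ) * cexp (I * ((t + τ) / 2) * (u - ℓ))) :=
      H385.Cut.split3 (H385.Cut.bt_int_integrable u t ℓ)
  have hs := H385.Cut.sqrt_pi_pos
  have hs2 := H385.Cut.sqrt_2pi_pos
  set s := Real.sqrt Real.pi with hsdef
  have e1 : ‖∫ τ : ℝ in Iic T,
      (Real.exp (-(t - τ) ^ 2 / 4) : ℂ) * cexp (I * ((t + τ) / 2) * (u - ℓ))‖ ≤
      s * Real.exp (-κ ^ 2 / 4) := by
    refine (norm_integral_le_integral_norm _).trans ?_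
    simp only [H385.Cut.bt_int_norm]
    have := H385.Cut.tail_Iic H385.Cut.hq (t := t) (a := T) (by linarith)
    rw [H385.Cut.sqrt_pi_quarter] at this
    refine this.trans ?_
    rw [show 2 * Real.sqrt Real.pi / 2 = s by rw [hsdef]; ring]
    refine mul_le_mul_of_nonneg_left (Real.exp_le_exp.2 ?_) hs.le
    nlinarith
  have e2 : ‖∫ τ : ℝ in Ioi (2 * T),
      (Real.exp (-(t - τ) ^ 2 / 4) : ℂ) * cexp (I * ((t + τ) / 2) * (u - ℓ))‖ ≤
      s * Real.exp (-κ ^ 2 / 4) := by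
    refine (norm_integral_le_integral_norm _).trans ?_
    simp only [H385.Cut.bt_int_norm]
    have := H385.Cut.tail_Ioi H385.Cut.hq (t := t) (a := 2 * T) (by linarith)
    rw [H385.Cut.sqrt_pi_quarter] at this
    refine this.trans ?_
    rw [show 2 * Real.sqrt Real.pi / 2 = s by rw [hsdef]; ring]
    refine mul_le_mul_of_nonneg_left (Real.exp_le_exp.2 ?_) hs.le
    nlinarith
  rw [H385.Cut.bt_eq, hJ, full_eq]
  set J1 := ∫ τ : ℝ in Iic T,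
      (Real.exp (-(t - τ) ^ 2 / 4) : ℂ) * cexp (I * ((t + τ) / 2) * (u - ℓ)) with hJ1
  set J2 := ∫ τ : ℝ in Ioi (2 * T),
      (Real.exp (-(t - τ) ^ 2 / 4) : ℂ) * cexp (I * ((t + τ) / 2) * (u - ℓ)) with hJ2
  set E := Real.exp (-(u - ℓ) ^ 2 / 4) with hE
  have hE0 : 0 < E := Real.exp_pos _
  have hE1 : E ≤ 1 := by
    apply Real.exp_le_one_iff.mpr
    nlinarith [sq_nonneg (u - ℓ)]
  have hEE : Real.exp (-(u - ℓ) ^ 2 / 2) = E * E := by
    rw [hE, ← Real.exp_add]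
    congr 1
    ring
  have key : ((1 / (2 * s) * (1 / Real.sqrt (2 * Real.pi)) * E : ℝ) : ℂ) *
      (((2 * s * E : ℝ) : ℂ) * cexp (I * t * (u - ℓ)) - J1 - J2) -
      ((1 / Real.sqrt (2 * Real.pi) * Real.exp (-(u - ℓ) ^ 2 / 2) : ℝ) : ℂ) *
        cexp (I * t * (u - ℓ)) =
      -(((1 / (2 * s) * (1 / Real.sqrt (2 * Real.pi)) * E : ℝ) : ℂ) * (J1 + J2)) := by
    rw [hEE]
    have hsc : (s : ℂ) ≠ 0 := by exact_mod_cast hs.ne'
    have hs2c : ((Real.sqrt (2 * Real.pi) : ℝ) : ℂ) ≠ 0 := by exact_mod_cast hs2.ne'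
    push_cast
    field_simp
    ring
  rw [key, norm_neg, norm_mul, Complex.norm_real, Real.norm_of_nonneg (by positivity)]
  have h3 : ‖J1 + J2‖ ≤ 2 * s * Real.exp (-κ ^ 2 / 4) := by
    refine (norm_add_le _ _).trans ?_
    linarith
  calc 1 / (2 * s) * (1 / Real.sqrt (2 * Real.pi)) * E * ‖J1 + J2‖
      ≤ 1 / (2 * s) * (1 / Real.sqrt (2 * Real.pi)) * 1 * (2 * s * Real.exp (-κ ^ 2 / 4)) := by
        gcongr
    _ = 1 / Real.sqrt (2 * Real.pi) * Real.exp (-κ ^ 2 / 4) := by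
        field_simp

/-- the smoothed sum -/
noncomputable def SS (P : Finset ℕ) (z y : ℕ → ℝ) (T u t : ℝ) : ℂ :=
  ∑ p ∈ P, ((z p * y p : ℝ) : ℂ) * bt T u t (Real.log p)

noncomputable def x1 (u : ℝ) (y : ℕ → ℝ) (p : ℕ) : ℝ :=
  y p * Real.exp (-(u - Real.log p) ^ 2 / 4)

noncomputable def x2 (u : ℝ) (y : ℕ → ℝ) (p : ℕ) : ℝ :=
  y p * Real.exp (-(u - Real.log p) ^ 2 / 2)

theorem SS_cont (P : Finset ℕ) (z y : ℕ → ℝ) (T u : ℝ) : Continuous (fun t => SS P z y T u t) := by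
  unfold SS
  refine continuous_finsetSum _ fun p _ => continuous_const.mul ?_
  exact (H385.bt_cont T (Real.log p)).comp (by fun_prop : Continuous fun t : ℝ => (u, t))

theorem SS_eq (P : Finset ℕ) (z y : ℕ → ℝ) (T u t : ℝ) : SS P z y T u t =
    (c1 : ℂ) * ∫ τ in T..(2 * T), (Real.exp (-(t - τ) ^ 2 / 4) : ℂ) *
      EX P z (x1 u y) u ((t + τ) / 2) := by
  have h1 : ∀ τ : ℝ, (Real.exp (-(t - τ) ^ 2 / 4) : ℂ) * EX P z (x1 u y) u ((t + τ) / 2) =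
      ∑ p ∈ P, ((z p * x1 u y p : ℝ) : ℂ) * ((Real.exp (-(t - τ) ^ 2 / 4) : ℂ) *
        cexp (I * ((t + τ) / 2) * (u - Real.log p))) := by
    intro τ
    unfold EX
    rw [Finset.mul_sum]
    refine Finset.sum_congr rfl fun p _ => ?_
    push_cast
    ring
  have hint : ∀ p ∈ P, IntervalIntegrable (fun τ : ℝ => ((z p * x1 u y p : ℝ) : ℂ) *
      ((Real.exp (-(t - τ) ^ 2 / 4) : ℂ) * cexp (I * ((t + τ) / 2) * (u - Real.log (p : ℝ)))))
      volume T (2 * T) := fun p _ =>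
    ((H385.Cut.bt_int_cont u t (Real.log p)).intervalIntegrable _ _).const_mul _
  simp_rw [h1]
  rw [intervalIntegral.integral_finsetSum hint, Finset.mul_sum]
  unfold SS
  refine Finset.sum_congr rfl fun p _ => ?_
  rw [intervalIntegral.integral_const_mul, H385.Cut.bt_eq]
  unfold H385.Cut.JJ x1 c1
  push_cast
  ring

/-- the middle of the interval -/
theorem SS_near {P : Finset ℕ} {z y : ℕ → ℝ} (hz : ∀ p, |z p| ≤ 1) {T κ u t d : ℝ} (hκ : 0 ≤ κ)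
    (hd : 0 < d) (h1 : T + κ ≤ t) (h2 : t ≤ 2 * T - κ) :
    ‖SS P z y T u t‖ ^ 2 ≤ (1 + d) / (2 * Real.pi) * ‖EX P z (x2 u y) u t‖ ^ 2 +
      (1 + 1 / d) / (2 * Real.pi) * Real.exp (-κ ^ 2 / 2) * (∑ p ∈ P, |y p|) ^ 2 := by
  have hs2 := H385.Cut.sqrt_2pi_pos
  have hsq : Real.sqrt (2 * Real.pi) ^ 2 = 2 * Real.pi := Real.sq_sqrt (by positivity)
  set r := 1 / Real.sqrt (2 * Real.pi) with hr
  have hr0 : 0 < r := by positivity
  have hr2 : r ^ 2 = 1 / (2 * Real.pi) := by rw [hr, div_pow, hsq, one_pow]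
  have h3 : ‖SS P z y T u t - (r : ℂ) * EX P z (x2 u y) u t‖ ≤
      r * Real.exp (-κ ^ 2 / 4) * ∑ p ∈ P, |y p| := by
    have e : SS P z y T u t - (r : ℂ) * EX P z (x2 u y) u t = ∑ p ∈ P, ((z p * y p : ℝ) : ℂ) *
        (bt T u t (Real.log p) - ((r * Real.exp (-(u - Real.log p) ^ 2 / 2) : ℝ) : ℂ) *
          cexp (I * t * (u - Real.log p))) := by
      unfold SS EX x2
      rw [Finset.mul_sum, ← Finset.sum_sub_distrib]
      refine Finset.sum_congr rfl fun p _ => ?_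
      push_cast
      ring
    rw [e, Finset.mul_sum]
    refine (norm_sum_le _ _).trans (Finset.sum_le_sum fun p _ => ?_)
    rw [norm_mul, Complex.norm_real, Real.norm_eq_abs, abs_mul]
    have h4 := bt_near (u := u) (ℓ := Real.log p) hκ h1 h2
    have h5 : |z p| * |y p| ≤ |y p| := by
      have := hz p
      nlinarith [abs_nonneg (y p)]
    calc |z p| * |y p| * _ ≤ |y p| * (r * Real.exp (-κ ^ 2 / 4)) :=
          mul_le_mul h5 h4 (norm_nonneg _) (abs_nonneg _)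
      _ = _ := by ring
  have h4 : ‖SS P z y T u t‖ ≤ r * ‖EX P z (x2 u y) u t‖ +
      r * Real.exp (-κ ^ 2 / 4) * ∑ p ∈ P, |y p| := by
    have h5 := norm_sub_norm_le (SS P z y T u t) ((r : ℂ) * EX P z (x2 u y) u t)
    rw [norm_mul, Complex.norm_real, Real.norm_of_nonneg hr0.le] at h5
    linarith
  set X := ‖EX P z (x2 u y) u t‖ with hX
  set Y := ∑ p ∈ P, |y p| with hY
  have hY0 : 0 ≤ Y := Finset.sum_nonneg fun p _ => abs_nonneg _
  have hee : Real.exp (-κ ^ 2 / 2) = Real.exp (-κ ^ 2 / 4) ^ 2 := by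
    rw [← Real.exp_nat_mul]
    congr 1
    push_cast
    ring
  have h6 : ‖SS P z y T u t‖ ^ 2 ≤ (r * X + r * Real.exp (-κ ^ 2 / 4) * Y) ^ 2 :=
    pow_le_pow_left₀ (norm_nonneg _) h4 2
  have h7 : (r * X + r * Real.exp (-κ ^ 2 / 4) * Y) ^ 2 ≤
      (1 + d) * (r * X) ^ 2 + (1 + 1 / d) * (r * Real.exp (-κ ^ 2 / 4) * Y) ^ 2 := by
    have h8 : 0 ≤ d * (r * X) ^ 2 + 1 / d * (r * Real.exp (-κ ^ 2 / 4) * Y) ^ 2 -
        2 * (r * X) * (r * Real.exp (-κ ^ 2 / 4) * Y) := by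
      have h9 : d * (r * X) ^ 2 + 1 / d * (r * Real.exp (-κ ^ 2 / 4) * Y) ^ 2 -
        2 * (r * X) * (r * Real.exp (-κ ^ 2 / 4) * Y) =
        1 / d * (d * (r * X) - (r * Real.exp (-κ ^ 2 / 4) * Y)) ^ 2 := by
        field_simp
        ring
      rw [h9]
      positivity
    nlinarith
  calc ‖SS P z y T u t‖ ^ 2 ≤ _ := h6.trans h7
    _ = (1 + d) * r ^ 2 * X ^ 2 + (1 + 1 / d) * r ^ 2 * Real.exp (-κ ^ 2 / 4) ^ 2 * Y ^ 2 := by ring
    _ = _ := by rw [hr2, hee]; ring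

/-- every point: Cauchy-Schwarz -/
theorem SS_cs {P : Finset ℕ} {z y : ℕ → ℝ} {T u t : ℝ} (hT : 0 < T) :
    ‖SS P z y T u t‖ ^ 2 ≤ c1 ^ 2 * (2 * Real.sqrt Real.pi) *
      ∫ τ in T..(2 * T), Real.exp (-(t - τ) ^ 2 / 4) * ‖EX P z (x1 u y) u ((t + τ) / 2)‖ ^ 2 := by
  have hw : Continuous (fun τ : ℝ => Real.exp (-(t - τ) ^ 2 / 4)) := by fun_prop
  have hE : Continuous (fun τ : ℝ => EX P z (x1 u y) u ((t + τ) / 2)) :=
    (EX_cont P z (x1 u y) u).comp (by fun_prop)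
  have hf : Continuous (fun τ : ℝ => ‖EX P z (x1 u y) u ((t + τ) / 2)‖) := hE.norm
  have h1 := cs hw hf (fun τ => Real.exp_pos _) (show T < 2 * T by linarith)
  have h2 : ‖∫ τ in T..(2 * T), (Real.exp (-(t - τ) ^ 2 / 4) : ℂ) *
      EX P z (x1 u y) u ((t + τ) / 2)‖ ≤
      ∫ τ in T..(2 * T), Real.exp (-(t - τ) ^ 2 / 4) * ‖EX P z (x1 u y) u ((t + τ) / 2)‖ := by
    refine (intervalIntegral.norm_integral_le_integral_norm (by linarith)).trans (le_of_eq ?_)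
    congr 1
    ext τ
    rw [norm_mul, Complex.norm_real, Real.norm_of_nonneg (Real.exp_pos _).le]
  have h3 : ∫ τ in T..(2 * T), Real.exp (-(t - τ) ^ 2 / 4) ≤ 2 * Real.sqrt Real.pi := by
    have h4 := H385.Cut.interval_le (H385.Cut.int_gauss_shift H385.Cut.hq t)
      (fun τ => (Real.exp_pos _).le) (show T ≤ 2 * T by linarith)
    rw [H385.Cut.integral_gauss_shift, H385.Cut.sqrt_pi_quarter] at h4
    refine le_trans (le_of_eq ?_) h4
    congr 1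
    ext τ
    congr 1
    ring
  have h5 : 0 ≤ ∫ τ in T..(2 * T), Real.exp (-(t - τ) ^ 2 / 4) *
      ‖EX P z (x1 u y) u ((t + τ) / 2)‖ ^ 2 :=
    intervalIntegral.integral_nonneg (by linarith) fun τ _ => by positivity
  rw [SS_eq, norm_mul, Complex.norm_real, Real.norm_of_nonneg c1_pos.le, mul_pow, mul_assoc]
  refine mul_le_mul_of_nonneg_left ?_ (sq_nonneg _)
  calc _ ≤ _ := pow_le_pow_left₀ (norm_nonneg _) h2 2
    _ ≤ _ := h1
    _ ≤ _ := mul_le_mul_of_nonneg_right h3 h5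

/-- the weights at the edges -/
theorem edge_weight {T κ t τ : ℝ} (hκ : 2 ≤ κ) (h1 : T ≤ τ) (h2 : τ ≤ 2 * T)
    (h : t ≤ T + κ ∨ 2 * T - κ ≤ t) :
    Real.exp (-(t - τ) ^ 2 / 4) ≤ Real.exp 2 * (Real.exp (-(t - τ) ^ 2 / 8) *
      (Real.exp (-(((t + τ) / 2 - T) / κ) ^ 2) + Real.exp (-(((t + τ) / 2 - 2 * T) / κ) ^ 2))) := by
  have hκ0 : 0 < κ := by linarith
  have hκ4 : 4 ≤ κ ^ 2 := by nlinarith
  have gen : ∀ a : ℝ, |(t + τ) / 2 - a| ≤ κ + |t - τ| / 2 →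
      (((t + τ) / 2 - a) / κ) ^ 2 ≤ 2 + (t - τ) ^ 2 / 8 := by
    intro a ha
    rw [div_pow, div_le_iff₀ (by positivity), ← sq_abs]
    have h3 := pow_le_pow_left₀ (abs_nonneg _) ha 2
    have h4 : (κ + |t - τ| / 2) ^ 2 ≤ 2 * κ ^ 2 + (t - τ) ^ 2 / 2 := by
      rw [← sq_abs (t - τ)]
      nlinarith [sq_nonneg (κ - |t - τ| / 2)]
    nlinarith [sq_nonneg (t - τ)]
  have fin : ∀ a : ℝ, (((t + τ) / 2 - a) / κ) ^ 2 ≤ 2 + (t - τ) ^ 2 / 8 →
      Real.exp (-(t - τ) ^ 2 / 4) ≤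
        Real.exp 2 * (Real.exp (-(t - τ) ^ 2 / 8) * Real.exp (-(((t + τ) / 2 - a) / κ) ^ 2)) := by
    intro a ha
    rw [← Real.exp_add, ← Real.exp_add]
    apply Real.exp_le_exp.2
    linarith
  have hp1 := Real.exp_pos (-(((t + τ) / 2 - T) / κ) ^ 2)
  have hp2 := Real.exp_pos (-(((t + τ) / 2 - 2 * T) / κ) ^ 2)
  rcases h with h | h
  · refine (fin T (gen T ?_)).trans ?_
    · rw [abs_le]
      have := abs_le.1 (le_refl |t - τ|)
      constructor <;> linarith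
    · gcongr
      linarith
  · refine (fin (2 * T) (gen (2 * T) ?_)).trans ?_
    · rw [abs_le]
      have := abs_le.1 (le_refl |t - τ|)
      constructor <;> linarith
    · gcongr
      linarith

end Pool.Agent.N767.QF
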